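import Pool.Agent.Y527.ZA.Stm

/-! Project ZA, job FORM: pulling back a first-order formula of a ring along a coding by naturals.
Proof by helper768. -/

set_option autoImplicit false

namespace Pool.Agent.Y768.ZA

open FirstOrder FirstOrder.Language
open Pool.Agent.Helper967.ArithDef Pool.Agent.Y527.ZA Pool.Agent.H358R3
open Pool.Agent.H358R3.Df (strO)

attribute [local instance] Df.strO

section

variable {O : Type} {D : ((ℕ → ℕ) → Prop) → Prop}

/-- definable functions with values in `O` -/
def DV (dc : ℕ → O) (D : ((ℕ → ℕ) → Prop) → Prop) (F : (ℕ → ℕ) → O) : Prop :=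
  D (fun w => dc (w 0) = F (fun n => w (n + 1)))

/-- the value of a constant or a variable -/
def vl (dc : ℕ → O) (g : O ⊕ ℕ) (w : ℕ → ℕ) : O := Sum.elim id (fun i => dc (w i)) g

theorem tconst (h : DC D) (k : ℕ) : DT D (fun _ => k) := by
  induction k with
  | zero => exact h.tzero
  | succ k ih => exact h.tadd ih h.tone

variable {dc : ℕ → O}

theorem vren (h : DC D) {F : (ℕ → ℕ) → O} (ρ : ℕ → ℕ) (hF : DV dc D F) :
    DV dc D (fun w => F (fun i => w (ρ i))) :=
  h.ren (fun n => match n with | 0 => 0 | n + 1 => ρ n + 1) hF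

theorem vsub (h : DC D) (hs : Function.Surjective dc) {R : O → (ℕ → ℕ) → Prop}
    {F : (ℕ → ℕ) → O} (hF : DV dc D F)
    (hR : D (fun w => R (dc (w 0)) (fun n => w (n + 1)))) : D (fun w => R (F w) w) := by
  refine h.iff (fun w => ?_) (h.ex' (S := fun a w => dc a = F w ∧ R (dc a) w) (h.and hF hR))
  constructor
  · rintro ⟨a, h1, h2⟩
    rwa [← h1]
  · intro h1
    obtain ⟨a, ha⟩ := hs (F w)
    exact ⟨a, ha, by rwa [ha]⟩

theorem vapp1 (h : DC D) (hs : Function.Surjective dc) {R : O → Prop} {F : (ℕ → ℕ) → O}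
    (hR : D (fun w => R (dc (w 0)))) (hF : DV dc D F) : D (fun w => R (F w)) :=
  vsub h hs (R := fun a _ => R a) hF hR

theorem vapp2 (h : DC D) (hs : Function.Surjective dc) {R : O → O → Prop} {F G : (ℕ → ℕ) → O}
    (hR : D (fun w => R (dc (w 0)) (dc (w 1)))) (hF : DV dc D F) (hG : DV dc D G) :
    D (fun w => R (F w) (G w)) := by
  refine vsub h hs (R := fun a w => R a (G w)) hF ?_
  refine vsub h hs (R := fun b w => R (dc (w 0)) b) (F := fun w => G (fun n => w (n + 1)))
    (vren h (fun n => n + 1) hG) ?_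
  exact h.ren (fun n => match n with | 0 => 1 | _ => 0) hR

theorem vapp3 (h : DC D) (hs : Function.Surjective dc) {R : O → O → O → Prop}
    {F G H : (ℕ → ℕ) → O} (hR : D (fun w => R (dc (w 0)) (dc (w 1)) (dc (w 2))))
    (hF : DV dc D F) (hG : DV dc D G) (hH : DV dc D H) : D (fun w => R (F w) (G w) (H w)) := by
  refine vsub h hs (R := fun a w => R a (G w) (H w)) hF ?_
  refine vsub h hs (R := fun b w => R (dc (w 0)) b (H (fun n => w (n + 1))))
    (F := fun w => G (fun n => w (n + 1))) (vren h (fun n => n + 1) hG) ?_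
  refine vsub h hs (R := fun c w => R (dc (w 1)) (dc (w 0)) c)
    (F := fun w => H (fun n => w (n + 2))) (vren h (fun n => n + 2) hH) ?_
  exact h.ren (fun n => match n with | 0 => 2 | 1 => 1 | _ => 0) hR

end

section

variable {O : Type} [CommRing O] {D : ((ℕ → ℕ) → Prop) → Prop} {dc : ℕ → O}

/-- equality of the coded elements -/
theorem eqd (h : DC D) (hs : Function.Surjective dc)
    (ha : D (fun w => dc (w 0) + dc (w 1) = dc (w 2))) : D (fun w => dc (w 0) = dc (w 1)) := by
  obtain ⟨z, hz⟩ := hs 0
  have h1 := h.app3 (R := fun a b c => dc a + dc b = dc c) ha (h.tvar 0) (tconst h z) (h.tvar 1)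
  refine h.iff (fun w => ?_) h1
  rw [hz, add_zero]

theorem vvar (h : DC D) (he : D (fun w => dc (w 0) = dc (w 1))) (i : ℕ) :
    DV dc D (fun w => dc (w i)) :=
  h.app2 (R := fun a b => dc a = dc b) he (h.tvar 0) (h.tvar (i + 1))

theorem vconst (h : DC D) (hs : Function.Surjective dc)
    (he : D (fun w => dc (w 0) = dc (w 1))) (b : O) : DV dc D (fun _ => b) := by
  obtain ⟨k, hk⟩ := hs b
  have h1 := h.app2 (R := fun a b => dc a = dc b) he (h.tvar 0) (tconst h k)
  refine h.iff (fun w => ?_) h1
  rw [hk]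

theorem vval (h : DC D) (hs : Function.Surjective dc)
    (he : D (fun w => dc (w 0) = dc (w 1))) (g : O ⊕ ℕ) : DV dc D (vl dc g) := by
  rcases g with b | i
  · exact vconst h hs he b
  · exact vvar h he i

theorem vadd (h : DC D) (hs : Function.Surjective dc)
    (he : D (fun w => dc (w 0) = dc (w 1)))
    (ha : D (fun w => dc (w 0) + dc (w 1) = dc (w 2))) {F G : (ℕ → ℕ) → O}
    (hF : DV dc D F) (hG : DV dc D G) : DV dc D (fun w => F w + G w) :=
  vapp3 h hs (R := fun a b c => c = a + b) (h.iff (fun w => by rw [eq_comm]) ha)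
    (vren h (fun n => n + 1) hF) (vren h (fun n => n + 1) hG) (vvar h he 0)

theorem vmul (h : DC D) (hs : Function.Surjective dc)
    (he : D (fun w => dc (w 0) = dc (w 1)))
    (hm : D (fun w => dc (w 0) * dc (w 1) = dc (w 2))) {F G : (ℕ → ℕ) → O}
    (hF : DV dc D F) (hG : DV dc D G) : DV dc D (fun w => F w * G w) :=
  vapp3 h hs (R := fun a b c => c = a * b) (h.iff (fun w => by rw [eq_comm]) hm)
    (vren h (fun n => n + 1) hF) (vren h (fun n => n + 1) hG) (vvar h he 0)

/-- terms -/
theorem term (h : DC D) (hs : Function.Surjective dc)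
    (ha : D (fun w => dc (w 0) + dc (w 1) = dc (w 2)))
    (hm : D (fun w => dc (w 0) * dc (w 1) = dc (w 2))) {α : Type} (g : α → O ⊕ ℕ)
    (t : Language.ring.Term α) : DV dc D (fun w => t.realize (fun x => vl dc (g x) w)) := by
  have he := eqd h hs ha
  induction t with
  | var x => exact vval h hs he (g x)
  | func f ts ih =>
    cases f with
    | add =>
      refine h.iff (fun w => ?_) (vadd h hs he ha (ih 0) (ih 1))
      have e := (FirstOrder.Ring.compatibleRingOfRing O).funMap_add
        (fun i => (ts i).realize (fun x => vl dc (g x) (fun n => w (n + 1))))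
      exact Iff.of_eq (congrArg (fun z => dc (w 0) = z) e.symm)
    | mul =>
      refine h.iff (fun w => ?_) (vmul h hs he hm (ih 0) (ih 1))
      have e := (FirstOrder.Ring.compatibleRingOfRing O).funMap_mul
        (fun i => (ts i).realize (fun x => vl dc (g x) (fun n => w (n + 1))))
      exact Iff.of_eq (congrArg (fun z => dc (w 0) = z) e.symm)
    | neg =>
      refine h.iff (fun w => ?_) (vmul h hs he hm (vconst h hs he (-1)) (ih 0))
      have e := (FirstOrder.Ring.compatibleRingOfRing O).funMap_neg
        (fun i => (ts i).realize (fun x => vl dc (g x) (fun n => w (n + 1))))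
      exact Iff.of_eq (congrArg (fun z => dc (w 0) = z) ((neg_one_mul _).trans e.symm))
    | zero =>
      refine h.iff (fun w => ?_) (vconst h hs he 0)
      have e := (FirstOrder.Ring.compatibleRingOfRing O).funMap_zero
        (fun i => (ts i).realize (fun x => vl dc (g x) (fun n => w (n + 1))))
      exact Iff.of_eq (congrArg (fun z => dc (w 0) = z) e.symm)
    | one =>
      refine h.iff (fun w => ?_) (vconst h hs he 1)
      have e := (FirstOrder.Ring.compatibleRingOfRing O).funMap_one
        (fun i => (ts i).realize (fun x => vl dc (g x) (fun n => w (n + 1))))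
      exact Iff.of_eq (congrArg (fun z => dc (w 0) = z) e.symm)

/-- formulas -/
theorem form (h : DC D) (hs : Function.Surjective dc)
    (ha : D (fun w => dc (w 0) + dc (w 1) = dc (w 2)))
    (hm : D (fun w => dc (w 0) * dc (w 1) = dc (w 2))) {α : Type} {n : ℕ}
    (ψ : Language.ring.BoundedFormula α n) : ∀ (g : α → O ⊕ ℕ) (f : Fin n → ℕ),
    D (fun w => ψ.Realize (fun x => vl dc (g x) w) (fun i => dc (w (f i)))) := by
  have he := eqd h hs ha
  induction ψ with
  | falsum =>
    intro g f
    exact h.bot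
  | equal t₁ t₂ =>
    intro g f
    have key : ∀ w : ℕ → ℕ, (fun x => vl dc (Sum.elim g (fun i => Sum.inr (f i)) x) w) =
        Sum.elim (fun x => vl dc (g x) w) (fun i => dc (w (f i))) := by
      intro w
      funext x
      rcases x with x | i <;> rfl
    have h1 := vapp2 h hs (R := fun a b => a = b) he
      (term h hs ha hm (Sum.elim g (fun i => Sum.inr (f i))) t₁)
      (term h hs ha hm (Sum.elim g (fun i => Sum.inr (f i))) t₂)
    refine h.iff (fun w => ?_) h1
    rw [key]
    rfl
  | rel R ts => exact isEmptyElim R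
  | imp ψ₁ ψ₂ ih₁ ih₂ =>
    intro g f
    exact h.imp (ih₁ g f) (ih₂ g f)
  | all ψ ih =>
    intro g f
    have h1 := h.all (ih (fun x => Sum.map id (fun i => i + 1) (g x))
      (Fin.snoc (α := fun _ => ℕ) (fun i => f i + 1) 0))
    refine h.iff (fun w => ?_) h1
    have e1 : ∀ a : ℕ, (fun x => vl dc (Sum.map id (fun i => i + 1) (g x)) (cns a w)) =
        fun x => vl dc (g x) w := by
      intro a
      funext x
      rcases g x with b | i <;> rfl
    have e2 : ∀ a : ℕ, (fun i => dc (cns a w
        (Fin.snoc (α := fun _ => ℕ) (fun i => f i + 1) 0 i))) =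
        Fin.snoc (α := fun _ => O) (fun i => dc (w (f i))) (dc a) := by
      intro a
      funext i
      refine Fin.lastCases ?_ (fun i => ?_) i
      · rw [Fin.snoc_last, Fin.snoc_last]
        rfl
      · rw [Fin.snoc_castSucc, Fin.snoc_castSucc]
        rfl
    rw [BoundedFormula.realize_all]
    constructor
    · intro h2 x
      obtain ⟨a, rfl⟩ := hs x
      have := h2 a
      rwa [e1, e2] at this
    · intro h2 a
      rw [e1, e2]
      exact h2 (dc a)

end

theorem h_FORM : s_FORM := by
  intro O _ dc D h hs ha hm φ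
  have h1 := form h hs ha hm φ (Sum.map id (fun _ : Fin 1 => 0)) (fun i => Fin.elim0 i)
  refine h.iff (fun w => ?_) h1
  have e1 : (fun x => vl dc (Sum.map id (fun _ : Fin 1 => 0) x) w) =
      Sum.elim id (fun _ : Fin 1 => dc (w 0)) := by
    funext x
    rcases x with x | i <;> rfl
  rw [e1]
  unfold Formula.Realize
  refine Iff.of_eq (congrArg _ ?_)
  exact Subsingleton.elim _ _

end Pool.Agent.Y768.ZA
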